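import Pool.Agent.Helper76.FT.GoalsB
import Pool.Agent.Helper76.FT.GoalsG

/-!
# Packet FT-STRAND of MP_39e2b7_an: the strand lemma
-/

set_option autoImplicit false

namespace Pool.Agent.Helper13.FT

open Pool.Agent.Helper76.FT Complex Set Filter Topology

/-- data at the start of the layer -/
noncomputable def DD (w : ℂ → ℝ → ℂ) (z : ℝ × ℝ) : ℂ × ℂ :=
  ((z.1 : ℂ) - (Int.fract z.2 : ℝ) * wt w z, wt w z)

/-- data as a function of the local coordinate -/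
noncomputable def hD (w : ℂ → ℝ → ℂ) (q₁ s₁ : ℝ) (χ : ℂ) : ℂ × ℂ :=
  ((q₁ : ℂ) + χ - (s₁ : ℂ) * w (q₁ + χ) s₁, w (q₁ + χ) s₁)

lemma isOpen_Str (ρ : ℝ) : IsOpen (Str ρ) := by
  have : Continuous (fun z : ℂ => |z.im|) := by fun_prop
  exact isOpen_lt this continuous_const

lemma real_mem_Str {ρ : ℝ} (hρ : 0 < ρ) (q : ℝ) : (q : ℂ) ∈ Str ρ := by
  simp [Str, hρ]

/-- finitely many radii -/
lemma exists_unif (s : Finset ℤ) (P : ℤ → ℝ → Prop)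
    (hmono : ∀ n a b, 0 < a → a ≤ b → P n b → P n a) (h : ∀ n ∈ s, ∃ a > 0, P n a) :
    ∃ a > 0, ∀ n ∈ s, P n a := by
  classical
  induction s using Finset.induction_on with
  | empty => exact ⟨1, one_pos, by simp⟩
  | insert a s ha ih =>
    obtain ⟨a₁, h1, h1'⟩ := ih (fun n hn => h n (Finset.mem_insert_of_mem hn))
    obtain ⟨a₂, h2, h2'⟩ := h a (Finset.mem_insert_self a s)
    refine ⟨min a₁ a₂, lt_min h1 h2, fun n hn => ?_⟩
    rcases Finset.mem_insert.mp hn with rfl | hn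
    · exact hmono _ _ _ (lt_min h1 h2) (min_le_right _ _) h2'
    · exact hmono _ _ _ (lt_min h1 h2) (min_le_left _ _) (h1' n hn)

/-- a piece of a path crossing the levels `A < B` -/
lemma exists_crossing (h : ℝ → ℝ) (hc : ContinuousOn h (Icc 0 1)) (A B : ℝ) (hAB : A < B)
    (h0 : h 0 ≤ A) (h1 : B ≤ h 1) :
    ∃ a ∈ Icc (0:ℝ) 1, ∃ b ∈ Icc (0:ℝ) 1, a ≤ b ∧ h a = A ∧ h b = B ∧
      ∀ s ∈ Icc a b, A ≤ h s ∧ h s ≤ B := by
  -- the first time at a level at least `B`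
  have hS : IsClosed (Icc (0:ℝ) 1 ∩ h ⁻¹' Ici B) := hc.preimage_isClosed_of_isClosed isClosed_Icc isClosed_Ici
  have hSc : IsCompact (Icc (0:ℝ) 1 ∩ h ⁻¹' Ici B) := isCompact_Icc.of_isClosed_subset hS inter_subset_left
  obtain ⟨b, hb, hbmin⟩ := hSc.exists_isLeast ⟨1, ⟨by simp, h1⟩⟩
  have hb1 : b ∈ Icc (0:ℝ) 1 := hb.1
  have hlt : ∀ s ∈ Icc (0:ℝ) 1, s < b → h s < B := by
    intro s hs hsb
    by_contra hcon
    exact absurd (hbmin ⟨hs, not_lt.mp hcon⟩) (not_le.mpr hsb)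
  have hbB : h b = B := by
    refine le_antisymm ?_ hb.2
    by_contra hcon
    push Not at hcon
    have hIVT : B ∈ h '' Icc 0 b := by
      have := intermediate_value_Icc hb1.1 (hc.mono (Icc_subset_Icc le_rfl hb1.2))
      exact this ⟨by linarith, hcon.le⟩
    obtain ⟨s, hs, hsB⟩ := hIVT
    have hsb : s < b := lt_of_le_of_ne hs.2 (by rintro rfl; exact absurd hsB (ne_of_gt hcon))
    exact absurd hsB (ne_of_lt (hlt s ⟨hs.1, hs.2.trans hb1.2⟩ hsb))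
  -- the last time before `b` at a level at most `A`
  have hcb : ContinuousOn h (Icc 0 b) := hc.mono (Icc_subset_Icc le_rfl hb1.2)
  have hS2 : IsClosed (Icc (0:ℝ) b ∩ h ⁻¹' Iic A) := hcb.preimage_isClosed_of_isClosed isClosed_Icc isClosed_Iic
  have hSc2 : IsCompact (Icc (0:ℝ) b ∩ h ⁻¹' Iic A) := isCompact_Icc.of_isClosed_subset hS2 inter_subset_left
  obtain ⟨a, ha, hamax⟩ := hSc2.exists_isGreatest ⟨0, ⟨⟨le_rfl, hb1.1⟩, h0⟩⟩
  have hgt : ∀ s ∈ Icc (0:ℝ) b, a < s → A < h s := by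
    intro s hs hsa
    by_contra hcon
    exact absurd (hamax ⟨hs, not_lt.mp hcon⟩) (not_le.mpr hsa)
  have haA : h a = A := by
    refine le_antisymm ha.2 ?_
    by_contra hcon
    push Not at hcon
    have hIVT : A ∈ h '' Icc a b := by
      have := intermediate_value_Icc ha.1.2 (hcb.mono (Icc_subset_Icc ha.1.1 le_rfl))
      exact this ⟨hcon.le, by linarith⟩
    obtain ⟨s, hs, hsA⟩ := hIVT
    have hsa : a < s := lt_of_le_of_ne hs.1 (by rintro rfl; exact absurd hsA (ne_of_lt hcon))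
    exact absurd hsA (ne_of_gt (hgt s ⟨ha.1.1.trans hs.1, hs.2⟩ hsa))
  refine ⟨a, ⟨ha.1.1, ha.1.2.trans hb1.2⟩, b, hb1, ha.1.2, haA, hbB, fun s hs => ⟨?_, ?_⟩⟩
  · rcases eq_or_lt_of_le hs.1 with rfl | hlt'
    · exact haA.ge
    · exact (hgt s ⟨ha.1.1.trans hs.1, hs.2⟩ hlt').le
  · rcases eq_or_lt_of_le hs.2 with rfl | hlt'
    · exact hbB.le
    · exact (hlt s ⟨ha.1.1.trans hs.1, hs.2.trans hb1.2⟩ hlt').le


/-! ### local coordinates -/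

/-- content of `GChart` at a point -/
structure Ch (w : ℂ → ℝ → ℂ) (z₁ : ℝ × ℝ) : Prop where
  map : Filter.map (chi w z₁) (𝓝 z₁) = 𝓝 0
  nonint : (∀ n : ℤ, z₁.2 ≠ n) →
      ∀ᶠ z in 𝓝 z₁, wt w z = w ((z₁.1 : ℂ) + chi w z₁ z) (Int.fract z₁.2)
  int : ∀ n : ℤ, z₁.2 = n →
      ∀ᶠ z in 𝓝 z₁, (z₁.2 ≤ z.2 → wt w z = w ((z₁.1 : ℂ) + chi w z₁ z) 0) ∧
        (z.2 < z₁.2 → wt w z = w ((z₁.1 : ℂ) + chi w z₁ z) 1)

section local_

variable {S : Sys} {δ ρ : ℝ} {w : ℂ → ℝ → ℂ} {c : ℂ}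

lemma Ch.tendsto {z₁ : ℝ × ℝ} (h : Ch w z₁) : Tendsto (chi w z₁) (𝓝 z₁) (𝓝 0) := h.map.le

lemma ev_Str (hρ : 0 < ρ) (q : ℝ) : ∀ᶠ χ in 𝓝 (0:ℂ), (q : ℂ) + χ ∈ Str ρ := by
  have h1 : Tendsto (fun χ : ℂ => (q : ℂ) + χ) (𝓝 0) (𝓝 ((q : ℂ) + 0)) :=
    (continuous_const.add continuous_id).tendsto 0
  rw [add_zero] at h1
  exact h1.eventually ((isOpen_Str ρ).mem_nhds (real_mem_Str hρ q))

lemma hD_diff (hT : Tor S δ w ρ c) (q₁ : ℝ) {s₁ : ℝ} (hs : s₁ ∈ Icc (0:ℝ) 1) :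
    ∀ᶠ χ in 𝓝 (0:ℂ), DifferentiableAt ℂ (hD w q₁ s₁) χ := by
  filter_upwards [ev_Str hT.hρ q₁] with χ hχ
  have h1 : DifferentiableAt ℂ (fun z => w z s₁) ((q₁ : ℂ) + χ) :=
    (hT.sh.hol s₁ hs).differentiableAt ((isOpen_Str ρ).mem_nhds hχ)
  have h2 : DifferentiableAt ℂ (fun χ : ℂ => w ((q₁ : ℂ) + χ) s₁) χ :=
    DifferentiableAt.comp (g := fun z => w z s₁) χ h1 (by fun_prop)
  unfold hD
  exact DifferentiableAt.prodMk (by fun_prop) h2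

lemma hD_zero (z₁ : ℝ × ℝ) : hD w z₁.1 (Int.fract z₁.2) 0 = DD w z₁ := by
  simp [hD, DD, wt]

lemma hD_cont (hT : Tor S δ w ρ c) (q₁ : ℝ) {s₁ : ℝ} (hs : s₁ ∈ Icc (0:ℝ) 1) :
    ContinuousAt (hD w q₁ s₁) 0 := (hD_diff hT q₁ hs).self_of_nhds.continuousAt

lemma analytic_comp (hT : Tor S δ w ρ c) (q₁ : ℝ) {s₁ : ℝ} (hs : s₁ ∈ Icc (0:ℝ) 1)
    {U : Set (ℂ × ℂ)} (hU : IsOpen U) {A : ℂ × ℂ → ℂ} (hA : DifferentiableOn ℂ A U)
    (h0 : hD w q₁ s₁ 0 ∈ U) : AnalyticAt ℂ (fun χ => A (hD w q₁ s₁ χ)) 0 := by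
  rw [analyticAt_iff_eventually_differentiableAt]
  filter_upwards [hD_diff hT q₁ hs, (hD_cont hT q₁ hs).eventually (hU.mem_nhds h0)] with χ h1 h2
  exact DifferentiableAt.comp (g := A) χ (hA.differentiableAt (hU.mem_nhds h2)) h1

lemma chart_nonint {z₁ : ℝ × ℝ} (h : Ch w z₁) (hn : ∀ n : ℤ, z₁.2 ≠ n) :
    ∀ᶠ z in 𝓝 z₁, ⌊z.2⌋ = ⌊z₁.2⌋ ∧ DD w z = hD w z₁.1 (Int.fract z₁.2) (chi w z₁ z) := by
  have h1 : ∀ᶠ z : ℝ × ℝ in 𝓝 z₁, ⌊z.2⌋ = ⌊z₁.2⌋ := by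
    have h2 : Ioo (⌊z₁.2⌋ : ℝ) (⌊z₁.2⌋ + 1) ∈ 𝓝 z₁.2 :=
      Ioo_mem_nhds (lt_of_le_of_ne (Int.floor_le _) (fun e => hn _ e.symm)) (Int.lt_floor_add_one _)
    filter_upwards [continuous_snd.continuousAt.eventually h2] with z hz
    exact Int.floor_eq_iff.mpr ⟨hz.1.le, hz.2⟩
  filter_upwards [h1, h.nonint hn] with z hz1 hz2
  refine ⟨hz1, ?_⟩
  have hf1 : Int.fract z.2 = z.2 - ⌊z₁.2⌋ := by rw [Int.fract, hz1]
  have hf2 : Int.fract z₁.2 = z₁.2 - ⌊z₁.2⌋ := rfl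
  unfold DD hD
  rw [← hz2]
  refine Prod.ext ?_ rfl
  simp only [hf1, hf2, chi]
  push_cast
  ring

lemma chart_int (hS : S.Ok) (hT : Tor S δ w ρ c) {z₁ : ℝ × ℝ} (h : Ch w z₁) (n : ℤ)
    (hn : z₁.2 = n) :
    ∀ᶠ z in 𝓝 z₁, (z₁.2 ≤ z.2 → ⌊z.2⌋ = n ∧ DD w z = hD w z₁.1 0 (chi w z₁ z)) ∧
      (z.2 < z₁.2 → ⌊z.2⌋ = n - 1 ∧ DD w z = FFi S (hD w z₁.1 0 (chi w z₁ z)) ∧
        FF S (DD w z) = hD w z₁.1 0 (chi w z₁ z)) := by
  have h2 : Ioo ((n : ℝ) - 1) (n + 1) ∈ 𝓝 z₁.2 := by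
    rw [hn]; exact Ioo_mem_nhds (by linarith) (by linarith)
  filter_upwards [continuous_snd.continuousAt.eventually h2, h.int n hn,
    h.tendsto.eventually (ev_Str hT.hρ z₁.1)] with z hz1 hz2 hz3
  constructor
  · intro hle
    have hfl : ⌊z.2⌋ = n := Int.floor_eq_iff.mpr ⟨by rw [← hn]; exact hle, hz1.2⟩
    refine ⟨hfl, ?_⟩
    have hf1 : Int.fract z.2 = z.2 - n := by rw [Int.fract, hfl]
    unfold DD hD
    rw [ofReal_zero, zero_mul, ← hz2.1 hle]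
    refine Prod.ext ?_ rfl
    simp only [hf1, chi, hn]
    push_cast
    ring
  · intro hlt
    have hfl : ⌊z.2⌋ = n - 1 := Int.floor_eq_iff.mpr ⟨by push_cast; exact hz1.1.le,
      by push_cast; rw [hn] at hlt; linarith⟩
    have hf1 : Int.fract z.2 = z.2 - (n - 1) := by rw [Int.fract, hfl]; push_cast; ring
    have hv := hz2.2 hlt
    have hk := hT.kick _ hz3
    have hnb := hT.nb _ hz3 1 (by simp)
    have hKi : S.Ki ((z₁.1 : ℂ) + chi w z₁ z) (w ((z₁.1 : ℂ) + chi w z₁ z) 0)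
        = w ((z₁.1 : ℂ) + chi w z₁ z) 1 := by
      rw [hk]; exact hS.KiK _ hnb
    have hpos : (z.1 : ℂ) - (Int.fract z.2 : ℝ) * wt w z + wt w z = (z₁.1 : ℂ) + chi w z₁ z := by
      simp only [hf1, chi, hn]
      push_cast
      ring
    refine ⟨hfl, ?_, ?_⟩
    · unfold DD FFi hD
      simp only [ofReal_zero, zero_mul, sub_zero]
      rw [hKi, ← hv, ← hpos]
      refine Prod.ext ?_ rfl
      simp
    · unfold DD FF hD
      simp only [ofReal_zero, zero_mul, sub_zero]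
      rw [hpos]
      refine Prod.ext rfl ?_
      simp only
      rw [hv, ← hk]


open Metric in
/-- the layered function is torus-holomorphic -/
lemma th_of_chart (hS : S.Ok) (hT : Tor S δ w ρ c) {z₁ : ℝ × ℝ} (hch : Ch w z₁)
    (dt : ℤ → ℂ × ℂ) (T' : ℤ) (R R1 : ℝ) (hR1R : R1 ≤ R) (A : ℤ → ℂ × ℂ → ℂ)
    (hol : ∀ n : ℤ, -T' ≤ n → n < T' → DifferentiableOn ℂ (A n) (ball (dt n) R))
    (step : ∀ n : ℤ, -T' ≤ n → n + 1 < T' → ∀ z ∈ ball (dt n) R,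
      FF S z ∈ ball (dt (n + 1)) R → A (n + 1) (FF S z) = A n z)
    (back : ∀ n : ℤ, -T' < n → n < T' → ∀ e ∈ ball (dt n) R1, FFi S e ∈ ball (dt (n - 1)) R)
    (h1 : -(T' : ℝ) < z₁.2) (h2 : z₁.2 < T') (hz : DD w z₁ ∈ ball (dt ⌊z₁.2⌋) R1) :
    TH w (fun z => A ⌊z.2⌋ (DD w z)) z₁ ∧ ∀ᶠ z in 𝓝 z₁, DD w z ∈ ball (dt ⌊z.2⌋) R := by
  have hfr : Int.fract z₁.2 ∈ Icc (0:ℝ) 1 := ⟨Int.fract_nonneg _, (Int.fract_lt_one _).le⟩
  have hlo : -T' ≤ ⌊z₁.2⌋ := by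
    rw [Int.le_floor]; push_cast; exact h1.le
  have hhi : ⌊z₁.2⌋ < T' := by
    rw [Int.floor_lt]; exact h2
  have hzR : DD w z₁ ∈ ball (dt ⌊z₁.2⌋) R := ball_subset_ball hR1R hz
  by_cases hn : ∀ n : ℤ, z₁.2 ≠ n
  · have hev := chart_nonint hch hn
    have h0 : hD w z₁.1 (Int.fract z₁.2) 0 ∈ ball (dt ⌊z₁.2⌋) R := by rw [hD_zero]; exact hzR
    constructor
    · refine ⟨fun χ => A ⌊z₁.2⌋ (hD w z₁.1 (Int.fract z₁.2) χ),
        analytic_comp hT z₁.1 hfr isOpen_ball (hol _ hlo hhi) h0, ?_⟩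
      filter_upwards [hev] with z hz'
      rw [hz'.1, hz'.2]
    · have h3 := (hD_cont hT z₁.1 hfr).eventually (isOpen_ball.mem_nhds h0)
      filter_upwards [hev, hch.tendsto.eventually h3] with z hz' hz''
      rw [hz'.1, hz'.2]
      exact hz''
  · push Not at hn
    obtain ⟨n, hn⟩ := hn
    have hfl : ⌊z₁.2⌋ = n := by rw [hn]; exact Int.floor_intCast n
    have hfr0 : Int.fract z₁.2 = 0 := by rw [hn]; exact Int.fract_intCast n
    rw [hfl] at hlo hhi hz hzR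
    have hnlo : -T' < n := by
      rw [hn] at h1; exact_mod_cast h1
    have hev := chart_int hS hT hch n hn
    have h0 : hD w z₁.1 0 0 ∈ ball (dt n) R1 := by
      have := hD_zero (w := w) z₁
      rw [hfr0] at this
      rw [this]; exact hz
    have hfr' : (0:ℝ) ∈ Icc (0:ℝ) 1 := by simp
    have h3 := hch.tendsto.eventually
      ((hD_cont hT z₁.1 hfr').eventually (isOpen_ball.mem_nhds h0))
    constructor
    · refine ⟨fun χ => A n (hD w z₁.1 0 χ),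
        analytic_comp hT z₁.1 hfr' isOpen_ball (hol _ hlo hhi) (ball_subset_ball hR1R h0), ?_⟩
      filter_upwards [hev, h3] with z hz' hz''
      rcases le_or_gt z₁.2 z.2 with hle | hlt
      · rw [(hz'.1 hle).1, (hz'.1 hle).2]
      · obtain ⟨e1, e2, e3⟩ := hz'.2 hlt
        rw [e1, ← e3]
        have hmem : DD w z ∈ ball (dt (n - 1)) R := by
          rw [e2]; exact back n hnlo hhi _ hz''
        have hmem2 : FF S (DD w z) ∈ ball (dt (n - 1 + 1)) R := by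
          rw [e3, sub_add_cancel]; exact ball_subset_ball hR1R hz''
        have := step (n - 1) (by omega) (by omega) _ hmem hmem2
        rw [sub_add_cancel] at this
        exact this.symm
    · filter_upwards [hev, h3] with z hz' hz''
      rcases le_or_gt z₁.2 z.2 with hle | hlt
      · rw [(hz'.1 hle).1, (hz'.1 hle).2]
        exact ball_subset_ball hR1R hz''
      · obtain ⟨e1, e2, e3⟩ := hz'.2 hlt
        rw [e1, e2]
        exact back n hnlo hhi _ hz''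

open Metric in
/-- closeness passes to the closure -/
lemma closure_data (hS : S.Ok) (hT : Tor S δ w ρ c) {z₁ : ℝ × ℝ} (hch : Ch w z₁)
    (dt : ℤ → ℂ × ℂ) (T' : ℤ) (R1 r0 : ℝ) (hR1 : 0 < R1) (hr0 : r0 ≤ R1 / 2)
    (forw : ∀ n : ℤ, -T' ≤ n → n + 1 < T' → ∀ d ∈ closedBall (dt n) r0,
      FF S d ∈ closedBall (dt (n + 1)) (R1 / 2))
    (O : Set (ℝ × ℝ)) (hO : ∀ z ∈ O, DD w z ∈ closedBall (dt ⌊z.2⌋) r0)
    (h1 : -(T' : ℝ) < z₁.2) (h2 : z₁.2 < T') (hz : z₁ ∈ closure O) :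
    DD w z₁ ∈ ball (dt ⌊z₁.2⌋) R1 := by
  have hfr : Int.fract z₁.2 ∈ Icc (0:ℝ) 1 := ⟨Int.fract_nonneg _, (Int.fract_lt_one _).le⟩
  have hfreq : ∃ᶠ z in 𝓝 z₁, z ∈ O := mem_closure_iff_frequently.mp hz
  have hsub : closedBall (dt ⌊z₁.2⌋) (R1 / 2) ⊆ ball (dt ⌊z₁.2⌋) R1 :=
    closedBall_subset_ball (by linarith)
  apply hsub
  have hlim : Tendsto (fun z => hD w z₁.1 (Int.fract z₁.2) (chi w z₁ z)) (𝓝 z₁)
      (𝓝 (DD w z₁)) := by
    have := (hD_cont hT z₁.1 hfr).tendsto.comp hch.tendsto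
    rw [hD_zero] at this
    exact this
  by_cases hn : ∀ n : ℤ, z₁.2 ≠ n
  · have hev := chart_nonint hch hn
    refine isClosed_closedBall.mem_of_frequently_of_tendsto ?_ hlim
    refine (hfreq.and_eventually hev).mono fun z hz' => ?_
    have := hO z hz'.1
    rw [hz'.2.1, hz'.2.2] at this
    exact closedBall_subset_closedBall hr0 this
  · push Not at hn
    obtain ⟨n, hn⟩ := hn
    have hfl : ⌊z₁.2⌋ = n := by rw [hn]; exact Int.floor_intCast n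
    have hfr0 : Int.fract z₁.2 = 0 := by rw [hn]; exact Int.fract_intCast n
    have hnlo : -T' < n := by
      rw [hn] at h1; exact_mod_cast h1
    have hnhi : n < T' := by
      rw [hn] at h2; exact_mod_cast h2
    rw [hfl]
    rw [hfr0] at hlim
    have hev := chart_int hS hT hch n hn
    refine isClosed_closedBall.mem_of_frequently_of_tendsto ?_ hlim
    refine (hfreq.and_eventually hev).mono fun z hz' => ?_
    have hzO := hO z hz'.1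
    rcases le_or_gt z₁.2 z.2 with hle | hlt
    · rw [(hz'.2.1 hle).1, (hz'.2.1 hle).2] at hzO
      exact closedBall_subset_closedBall hr0 hzO
    · obtain ⟨e1, e2, e3⟩ := hz'.2.2 hlt
      rw [e1] at hzO
      have := forw (n - 1) (by omega) (by omega) _ hzO
      rw [e3, sub_add_cancel] at this
      exact this

end local_

end Pool.Agent.Helper13.FT
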