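import Pool.Agent.Helper13.FT.STRAND

/-!
# Packet FT-STRAND of MP_39e2b7_an: the strand lemma, assembly
-/

set_option autoImplicit false

namespace Pool.Agent.Helper13.FT

open Pool.Agent.Helper76.FT Complex Set Filter Topology

/-- pieces of strands from a path -/
lemma strand_of_path {S : Sys} {w : ℂ → ℝ → ℂ} {Y x r A B : ℝ} (γ : ℝ → ℝ × ℝ)
    (hγ : ContinuousOn γ (Icc 0 1)) (hAB : A < B) (h0 : (γ 0).2 ≤ A) (h1 : B ≤ (γ 1).2)
    (hN : ∀ s ∈ Icc (0:ℝ) 1, Near S w Y x r (γ s)) : Strand S w Y x r A B := by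
  obtain ⟨a, ha, b, hb, hab, haA, hbB, hl⟩ := exists_crossing (fun s => (γ s).2)
    (continuous_snd.comp_continuousOn hγ) A B hAB h0 h1
  have hmem : ∀ s ∈ Icc (0:ℝ) 1, a + s * (b - a) ∈ Icc a b := by
    intro s hs
    constructor
    · nlinarith [hs.1, hs.2]
    · nlinarith [hs.1, hs.2]
  have hmem' : ∀ s ∈ Icc (0:ℝ) 1, a + s * (b - a) ∈ Icc (0:ℝ) 1 := fun s hs =>
    ⟨ha.1.trans (hmem s hs).1, (hmem s hs).2.trans hb.2⟩
  refine ⟨fun s => γ (a + s * (b - a)), ?_, ?_, ?_, ?_⟩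
  · exact hγ.comp (by fun_prop) hmem'
  · simp [haA]
  · simp [hbB]
  · intro s hs
    exact ⟨(hl _ (hmem s hs)).1, (hl _ (hmem s hs)).2, hN _ (hmem' s hs)⟩

open Metric in
lemma near_of_data {S : Sys} {w : ℂ → ℝ → ℂ} {Y x r r0 : ℝ} (z : ℝ × ℝ) (hr0 : 0 < r0)
    (hr : 2 * r0 < r)
    (h : DD w z ∈ closedBall (dat S Y x ⌊z.2⌋) r0) : Near S w Y x r z := by
  rw [mem_closedBall, dist_eq_norm] at h
  have h1 : ‖(DD w z).1 - ((S.orb Y x ⌊z.2⌋ : ℝ) : ℂ)‖ ≤ r0 := by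
    exact (norm_fst_le (DD w z - dat S Y x ⌊z.2⌋)).trans h
  have h2 : ‖(DD w z).2 - ((S.vel Y x ⌊z.2⌋ : ℝ) : ℂ)‖ ≤ r0 := by
    exact (norm_snd_le (DD w z - dat S Y x ⌊z.2⌋)).trans h
  have h2' : ‖wt w z - ((S.vel Y x ⌊z.2⌋ : ℝ) : ℂ)‖ ≤ r0 := h2
  constructor
  · have e : (((z.1 - (S.orb Y x ⌊z.2⌋ + Int.fract z.2 * S.vel Y x ⌊z.2⌋)) : ℝ) : ℂ)
        = ((DD w z).1 - ((S.orb Y x ⌊z.2⌋ : ℝ) : ℂ))
          + (Int.fract z.2 : ℝ) * (wt w z - ((S.vel Y x ⌊z.2⌋ : ℝ) : ℂ)) := by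
      simp only [DD]
      push_cast
      ring
    have e2 : ‖(((z.1 - (S.orb Y x ⌊z.2⌋ + Int.fract z.2 * S.vel Y x ⌊z.2⌋)) : ℝ) : ℂ)‖
        ≤ 2 * r0 := by
      rw [e]
      refine (norm_add_le _ _).trans ?_
      rw [norm_mul]
      have h3 : ‖((Int.fract z.2 : ℝ) : ℂ)‖ ≤ 1 := by
        rw [Complex.norm_real, Real.norm_eq_abs, abs_of_nonneg (Int.fract_nonneg _)]
        exact (Int.fract_lt_one _).le
      have h4 : ‖((Int.fract z.2 : ℝ) : ℂ)‖ * ‖wt w z - ((S.vel Y x ⌊z.2⌋ : ℝ) : ℂ)‖ ≤ 1 * r0 :=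
        mul_le_mul h3 h2' (norm_nonneg _) zero_le_one
      linarith
    rw [Complex.norm_real, Real.norm_eq_abs] at e2
    linarith
  · linarith

/-- a boundary point of a component of an open set is not in the set -/
lemma frontier_comp {O : Set (ℝ × ℝ)} (hO : IsOpen O) (z₀ z' : ℝ × ℝ)
    (h : z' ∈ frontier (connectedComponentIn O z₀)) : z' ∉ O := by
  intro hz'
  have hCo : IsOpen (connectedComponentIn O z₀) := hO.connectedComponentIn
  have hCo' : IsOpen (connectedComponentIn O z') := hO.connectedComponentIn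
  have hcl : z' ∈ closure (connectedComponentIn O z₀) := frontier_subset_closure h
  have hmem : z' ∈ connectedComponentIn O z' := mem_connectedComponentIn hz'
  obtain ⟨y, hy1, hy2⟩ := mem_closure_iff.mp hcl _ hCo' hmem
  have e1 := connectedComponentIn_eq hy1
  have e2 := connectedComponentIn_eq hy2
  have : z' ∈ connectedComponentIn O z₀ := by rw [e2, ← e1]; exact hmem
  rw [hCo.frontier_eq] at h
  exact h.2 this

open Metric in
lemma strand_core (hChart : GChart) (hOM : GOM) (hMinP : GMinP) {S : Sys} (hS : S.Ok)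
    {Y x r R κ R1 r0 : ℝ} {T : ℤ} {Ap Am : ℤ → ℂ × ℂ → ℂ} (hT2 : 2 ≤ T)
    (L : Loc S Y x (T + 1) R κ Ap Am) (hR1 : 0 < R1) (hR1R : R1 ≤ R)
    (back : ∀ n : ℤ, -(T + 1) < n → n < T + 1 → ∀ e ∈ ball (dat S Y x n) R1,
      FFi S e ∈ ball (dat S Y x (n - 1)) R)
    (hr0 : 0 < r0) (hr0R : r0 ≤ R1 / 2) (hr0r : 2 * r0 < r)
    (forw : ∀ n : ℤ, -(T + 1) ≤ n → n + 1 < T + 1 → ∀ d ∈ closedBall (dat S Y x n) r0,
      FF S d ∈ closedBall (dat S Y x (n + 1)) (R1 / 2))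
    {δ ρ : ℝ} {w : ℂ → ℝ → ℂ} {c : ℂ} (hT : Tor S δ w ρ c) (z₀ : ℝ × ℝ)
    (hz0 : 0 ≤ z₀.2) (hz1 : z₀.2 ≤ 1) (hD0 : DD w z₀ ∈ ball (dat S Y x ⌊z₀.2⌋) R)
    (hs1 : ‖Ap ⌊z₀.2⌋ (DD w z₀) - ((S.orb Y x (T + 1) : ℝ) : ℂ)‖ < κ * r0 / 16)
    (hs2 : ‖Am ⌊z₀.2⌋ (DD w z₀) - ((S.orb Y x (-(T + 1)) : ℝ) : ℂ)‖ < κ * r0 / 16) :
    Strand S w Y x r 1 T ∨ Strand S w Y x r (-T) 0 := by
  have hT2R : (2:ℝ) ≤ T := by exact_mod_cast hT2
  have hκ := L.hc
  set fp : ℝ × ℝ → ℂ := fun z => Ap ⌊z.2⌋ (DD w z) with hfp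
  set fm : ℝ × ℝ → ℂ := fun z => Am ⌊z.2⌋ (DD w z) with hfm
  set a : ℂ := ((S.orb Y x (T + 1) : ℝ) : ℂ) with ha
  set b : ℂ := ((S.orb Y x (-(T + 1)) : ℝ) : ℂ) with hb
  set rr : ℝ := κ * r0 with hrr
  have hrrpos : 0 < rr := mul_pos hκ hr0
  set O : Set (ℝ × ℝ) := {z | -((T:ℝ) + 1) < z.2 ∧ z.2 < (T:ℝ) + 1 ∧
    DD w z ∈ ball (dat S Y x ⌊z.2⌋) R ∧ ‖fp z - a‖ < rr ∧ ‖fm z - b‖ < rr} with hO
  have hfloor : ∀ z : ℝ × ℝ, -((T:ℝ) + 1) < z.2 → z.2 < (T:ℝ) + 1 →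
      -(T + 1) ≤ ⌊z.2⌋ ∧ ⌊z.2⌋ < T + 1 := by
    intro z h1 h2
    constructor
    · rw [Int.le_floor]; push_cast; linarith
    · rw [Int.floor_lt]; push_cast; exact h2
  have hCh : ∀ z₁ : ℝ × ℝ, Ch w z₁ := fun z₁ =>
    ⟨(hChart S hS δ ρ w c hT z₁).1, (hChart S hS δ ρ w c hT z₁).2.1,
      (hChart S hS δ ρ w c hT z₁).2.2⟩
  have hOclose : ∀ z ∈ O, DD w z ∈ closedBall (dat S Y x ⌊z.2⌋) r0 := by
    rintro z ⟨h1, h2, h3, h4, h5⟩
    obtain ⟨h6, h7⟩ := hfloor z h1 h2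
    have h8 := L.anti ⌊z.2⌋ h6 h7 _ h3
    have h9 : κ * ‖DD w z - dat S Y x ⌊z.2⌋‖ ≤ κ * r0 :=
      h8.trans (max_lt h4 h5).le
    rw [mem_closedBall, dist_eq_norm]
    exact le_of_mul_le_mul_left h9 hκ
  have hTH : ∀ z₁ : ℝ × ℝ, -((T:ℝ) + 1) < z₁.2 → z₁.2 < (T:ℝ) + 1 →
      DD w z₁ ∈ ball (dat S Y x ⌊z₁.2⌋) R1 →
      TH w fp z₁ ∧ TH w fm z₁ ∧ ∀ᶠ z in 𝓝 z₁, DD w z ∈ ball (dat S Y x ⌊z.2⌋) R := by
    intro z₁ h1 h2 h3
    have h1' : -(((T + 1 : ℤ)) : ℝ) < z₁.2 := by push_cast; exact h1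
    have h2' : z₁.2 < ((T + 1 : ℤ) : ℝ) := by push_cast; exact h2
    have hA := th_of_chart hS hT (hCh z₁) (dat S Y x) (T + 1) R R1 hR1R Ap
      L.holp (fun n h h' z hz hz' => (L.step n h h' z hz hz').1) back h1' h2' h3
    have hB := th_of_chart hS hT (hCh z₁) (dat S Y x) (T + 1) R R1 hR1R Am
      L.holm (fun n h h' z hz hz' => (L.step n h h' z hz hz').2) back h1' h2' h3
    exact ⟨hA.1, hB.1, hA.2⟩
  have hcont : ∀ z₁ : ℝ × ℝ, -((T:ℝ) + 1) < z₁.2 → z₁.2 < (T:ℝ) + 1 →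
      DD w z₁ ∈ ball (dat S Y x ⌊z₁.2⌋) R1 → ContinuousAt fp z₁ ∧ ContinuousAt fm z₁ := by
    intro z₁ h1 h2 h3
    obtain ⟨h4, h5, -⟩ := hTH z₁ h1 h2 h3
    exact ⟨((hOM S hS δ ρ w c hT z₁).1 fp h4).2, ((hOM S hS δ ρ w c hT z₁).1 fm h5).2⟩
  have hR1' : r0 < R1 := by linarith
  have hOopen : IsOpen O := by
    rw [isOpen_iff_mem_nhds]
    intro z hz
    have hz' := hOclose z hz
    obtain ⟨h1, h2, h3, h4, h5⟩ := hz
    have hz'' : DD w z ∈ ball (dat S Y x ⌊z.2⌋) R1 := closedBall_subset_ball hR1' hz'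
    obtain ⟨-, -, h6⟩ := hTH z h1 h2 hz''
    obtain ⟨h7, h8⟩ := hcont z h1 h2 hz''
    have e1 : ∀ᶠ y : ℝ × ℝ in 𝓝 z, -((T:ℝ) + 1) < y.2 :=
      continuous_snd.continuousAt.eventually (lt_mem_nhds h1)
    have e2 : ∀ᶠ y : ℝ × ℝ in 𝓝 z, y.2 < (T:ℝ) + 1 :=
      continuous_snd.continuousAt.eventually (gt_mem_nhds h2)
    have e3 : ∀ᶠ y : ℝ × ℝ in 𝓝 z, ‖fp y - a‖ < rr :=
      ((h7.sub continuousAt_const).norm).eventually (gt_mem_nhds h4)
    have e4 : ∀ᶠ y : ℝ × ℝ in 𝓝 z, ‖fm y - b‖ < rr :=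
      ((h8.sub continuousAt_const).norm).eventually (gt_mem_nhds h5)
    filter_upwards [e1, e2, e3, e4, h6] with y y1 y2 y3 y4 y5
    exact ⟨y1, y2, y5, y3, y4⟩
  have hOcl : ∀ z ∈ closure O, -((T:ℝ) + 1) < z.2 → z.2 < (T:ℝ) + 1 →
      DD w z ∈ ball (dat S Y x ⌊z.2⌋) R1 ∧ ‖fp z - a‖ ≤ rr ∧ ‖fm z - b‖ ≤ rr := by
    intro z hz h1 h2
    have h1' : -(((T + 1 : ℤ)) : ℝ) < z.2 := by push_cast; exact h1
    have h2' : z.2 < ((T + 1 : ℤ) : ℝ) := by push_cast; exact h2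
    have h3 := closure_data hS hT (hCh z) (dat S Y x) (T + 1) R1 r0 hR1 hr0R forw O hOclose
      h1' h2' hz
    obtain ⟨h7, h8⟩ := hcont z h1 h2 h3
    have hfreq : ∃ᶠ y in 𝓝 z, y ∈ O := mem_closure_iff_frequently.mp hz
    refine ⟨h3, ?_, ?_⟩
    · have := isClosed_Iic.mem_of_frequently_of_tendsto (b := 𝓝 z) (s := Iic rr)
        (f := fun y => ‖fp y - a‖) (hfreq.mono fun y hy => hy.2.2.2.1.le)
        (h7.sub continuousAt_const).norm.tendsto
      exact this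
    · have := isClosed_Iic.mem_of_frequently_of_tendsto (b := 𝓝 z) (s := Iic rr)
        (f := fun y => ‖fm y - b‖) (hfreq.mono fun y hy => hy.2.2.2.2.le)
        (h8.sub continuousAt_const).norm.tendsto
      exact this
  have hz0O : z₀ ∈ O := by
    refine ⟨by linarith, by linarith, hD0, ?_, ?_⟩
    · linarith
    · linarith
  have hNear : ∀ z ∈ O, Near S w Y x r z := fun z hz =>
    near_of_data z hr0 hr0r (hOclose z hz)
  set C : Set (ℝ × ℝ) := connectedComponentIn O z₀ with hC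
  have hCO : C ⊆ O := connectedComponentIn_subset O z₀
  have hCopen : IsOpen C := hOopen.connectedComponentIn
  have hz0C : z₀ ∈ C := mem_connectedComponentIn hz0O
  have hCconn : IsConnected C := isConnected_connectedComponentIn_iff.mpr hz0O
  have hCpath : IsPathConnected C := (hCopen.isConnected_iff_isPathConnected).mp hCconn
  by_cases hcase1 : ∃ z ∈ C, (T:ℝ) ≤ z.2
  · obtain ⟨z₁, hz₁C, hz₁⟩ := hcase1
    left
    obtain ⟨γ, hγ⟩ := hCpath.joinedIn z₀ hz0C z₁ hz₁C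
    refine strand_of_path γ.extend γ.continuous_extend.continuousOn (by linarith) ?_ ?_ ?_
    · rw [γ.extend_zero]; exact hz1
    · rw [γ.extend_one]; exact hz₁
    · intro s hs
      rw [γ.extend_apply hs]
      exact hNear _ (hCO (hγ _))
  by_cases hcase2 : ∃ z ∈ C, z.2 ≤ -(T:ℝ)
  · obtain ⟨z₁, hz₁C, hz₁⟩ := hcase2
    right
    obtain ⟨γ, hγ⟩ := hCpath.joinedIn z₁ hz₁C z₀ hz0C
    refine strand_of_path γ.extend γ.continuous_extend.continuousOn (by linarith) ?_ ?_ ?_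
    · rw [γ.extend_zero]; exact hz₁
    · rw [γ.extend_one]; exact hz0
    · intro s hs
      rw [γ.extend_apply hs]
      exact hNear _ (hCO (hγ _))
  exfalso
  push Not at hcase1 hcase2
  -- bounded
  have hCb : Bornology.IsBounded C := by
    set B : ℝ := ∑ n ∈ Finset.Icc (-(T + 1)) (T + 1), (|S.orb Y x n| + |S.vel Y x n|) with hB
    have hsub : C ⊆ Icc (-(B + r)) (B + r) ×ˢ Icc (-(T:ℝ)) T := by
      intro z hz
      obtain ⟨h1, -⟩ := hNear z (hCO hz)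
      obtain ⟨h6, h7⟩ := hfloor z (hCO hz).1 (hCO hz).2.1
      have hBn : |S.orb Y x ⌊z.2⌋| + |S.vel Y x ⌊z.2⌋| ≤ B := by
        refine Finset.single_le_sum (f := fun n => |S.orb Y x n| + |S.vel Y x n|)
          (fun n _ => by positivity) ?_
        rw [Finset.mem_Icc]
        exact ⟨h6, h7.le⟩
      have hfr : |Int.fract z.2 * S.vel Y x ⌊z.2⌋| ≤ |S.vel Y x ⌊z.2⌋| := by
        rw [abs_mul, abs_of_nonneg (Int.fract_nonneg z.2)]
        have := (Int.fract_lt_one z.2).le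
        nlinarith [abs_nonneg (S.vel Y x ⌊z.2⌋)]
      have habs : |z.1| ≤ B + r := by
        have h8 : |z.1| ≤ |z.1 - (S.orb Y x ⌊z.2⌋ + Int.fract z.2 * S.vel Y x ⌊z.2⌋)|
            + |S.orb Y x ⌊z.2⌋ + Int.fract z.2 * S.vel Y x ⌊z.2⌋| := by
          have := abs_add_le (z.1 - (S.orb Y x ⌊z.2⌋ + Int.fract z.2 * S.vel Y x ⌊z.2⌋))
            (S.orb Y x ⌊z.2⌋ + Int.fract z.2 * S.vel Y x ⌊z.2⌋)
          simpa using this
        have h9 := abs_add_le (S.orb Y x ⌊z.2⌋) (Int.fract z.2 * S.vel Y x ⌊z.2⌋)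
        linarith
      exact ⟨abs_le.mp habs, (hcase2 z hz).le, (hcase1 z hz).le⟩
    exact ((isBounded_Icc _ _).prod (isBounded_Icc _ _)).subset hsub
  -- closure facts
  have hclC : ∀ z ∈ closure C, z ∈ closure O ∧ -(T:ℝ) ≤ z.2 ∧ z.2 ≤ T := by
    intro z hz
    refine ⟨closure_mono hCO hz, ?_, ?_⟩
    · have hcl : IsClosed {z : ℝ × ℝ | -(T:ℝ) ≤ z.2} := isClosed_le continuous_const continuous_snd
      exact closure_minimal (fun z hz => (hcase2 z hz).le) hcl hz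
    · have hcl : IsClosed {z : ℝ × ℝ | z.2 ≤ (T:ℝ)} := isClosed_le continuous_snd continuous_const
      exact closure_minimal (fun z hz => (hcase1 z hz).le) hcl hz
  set Φ : ℂ × ℂ → ℂ := fun u => (u.1 - a) ^ 2 + (u.2 - b) ^ 2
    - I * (4 * rr : ℝ) * ((u.1 - a) - (u.2 - b)) with hΦ
  set f : ℝ × ℝ → ℂ := fun z => Φ (fp z, fm z) with hf
  have hfTH : ∀ z ∈ closure C, TH w f z := by
    intro z hz
    obtain ⟨h1, h2, h3⟩ := hclC z hz
    obtain ⟨h4, -, -⟩ := hOcl z h1 (by linarith) (by linarith)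
    obtain ⟨h5, h6, -⟩ := hTH z (by linarith) (by linarith) h4
    refine (hOM S hS δ ρ w c hT z).2 fp fm Φ univ isOpen_univ ?_ (mem_univ _) h5 h6
    have : Differentiable ℂ Φ := by rw [hΦ]; fun_prop
    exact this.differentiableOn
  obtain ⟨z', hz'f, hz'le⟩ := hMinP C f hCopen hCb
    (fun z hz => ((hOM S hS δ ρ w c hT z).1 f (hfTH z hz)).2.continuousWithinAt)
    (fun z hz => ((hOM S hS δ ρ w c hT z).1 f (hfTH z (subset_closure hz))).1) z₀ hz0C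
  have hz'cl : z' ∈ closure C := frontier_subset_closure hz'f
  obtain ⟨g1, g2, g3⟩ := hclC z' hz'cl
  obtain ⟨g4, g5, g6⟩ := hOcl z' g1 (by linarith) (by linarith)
  have hz'O : z' ∉ O := frontier_comp hOopen z₀ z' hz'f
  obtain ⟨g7, g8⟩ := hfloor z' (by linarith) (by linarith)
  -- signs
  have hv : 0 < (wt w z').im := (hT.pos z'.1 _ ⟨Int.fract_nonneg _, (Int.fract_lt_one _).le⟩).1
  have g4R : DD w z' ∈ ball (dat S Y x ⌊z'.2⌋) R := ball_subset_ball hR1R g4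
  have hPim : 0 < (fp z' - a).im := by
    have := L.sgnp ⌊z'.2⌋ g7 g8 z'.1 (Int.fract z'.2) (wt w z')
      ⟨Int.fract_nonneg _, (Int.fract_lt_one _).le⟩ hv g4R
      (fun h => absurd h.2 (Int.fract_lt_one _).ne)
    rw [sub_im, ha, ofReal_im, sub_zero]
    exact this
  have hQim : (fm z' - b).im < 0 := by
    have := L.sgnm ⌊z'.2⌋ g7 g8 z'.1 (Int.fract z'.2) (wt w z')
      ⟨Int.fract_nonneg _, (Int.fract_lt_one _).le⟩ hv g4R
      (fun h => by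
        have e : z'.2 = ((-(T + 1) : ℤ) : ℝ) := by
          have e1 := Int.floor_add_fract z'.2
          rw [h.1, h.2, add_zero] at e1
          exact e1.symm
        push_cast at e
        linarith)
    rw [sub_im, hb, ofReal_im, sub_zero]
    exact this
  have key : ∀ u : ℂ, (u ^ 2).re = ‖u‖ ^ 2 - 2 * u.im ^ 2 := by
    intro u
    rw [← Complex.normSq_eq_norm_sq, Complex.normSq_apply, pow_two, Complex.mul_re]
    ring
  have hre : ∀ z, (f z).re = ‖fp z - a‖ ^ 2 - 2 * (fp z - a).im ^ 2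
      + (‖fm z - b‖ ^ 2 - 2 * (fm z - b).im ^ 2)
      + 4 * rr * ((fp z - a).im - (fm z - b).im) := by
    intro z
    simp only [hf, hΦ]
    rw [sub_re, add_re, key, key]
    have : (I * (4 * rr : ℝ) * ((fp z - a) - (fm z - b))).re
        = -(4 * rr * ((fp z - a).im - (fm z - b).im)) := by
      rw [mul_assoc, I_mul_re, im_ofReal_mul, sub_im (fp z - a)]
    rw [this]
    ring
  have hmax : rr ^ 2 ≤ ‖fp z' - a‖ ^ 2 + ‖fm z' - b‖ ^ 2 := by
    by_contra hcon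
    push Not at hcon
    apply hz'O
    refine ⟨by linarith, by linarith, g4R, ?_, ?_⟩
    · have : ‖fp z' - a‖ ^ 2 < rr ^ 2 := by nlinarith [sq_nonneg ‖fm z' - b‖]
      exact lt_of_pow_lt_pow_left₀ 2 hrrpos.le this
    · have : ‖fm z' - b‖ ^ 2 < rr ^ 2 := by nlinarith [sq_nonneg ‖fp z' - a‖]
      exact lt_of_pow_lt_pow_left₀ 2 hrrpos.le this
  have hPle : (fp z' - a).im ≤ rr := (le_abs_self _).trans ((abs_im_le_norm _).trans g5)
  have hQle : -rr ≤ (fm z' - b).im := by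
    have := (neg_abs_le (fm z' - b).im)
    have := (abs_im_le_norm (fm z' - b)).trans g6
    linarith
  have hlow : rr ^ 2 ≤ (f z').re := by
    rw [hre]
    nlinarith [mul_nonneg hPim.le (sub_nonneg.mpr hPle),
      mul_nonneg (neg_nonneg.mpr hQim.le) (by linarith : 0 ≤ (fm z' - b).im + rr), hrrpos]
  have hup : (f z₀).re < rr ^ 2 := by
    rw [hre]
    have b1 : |(fp z₀ - a).im| ≤ ‖fp z₀ - a‖ := abs_im_le_norm _
    have b2 : |(fm z₀ - b).im| ≤ ‖fm z₀ - b‖ := abs_im_le_norm _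
    have b3 : (fp z₀ - a).im ≤ rr / 16 := (le_abs_self _).trans (b1.trans hs1.le)
    have b4 : -(rr / 16) ≤ (fm z₀ - b).im := by
      have := neg_abs_le (fm z₀ - b).im
      have := b2.trans hs2.le
      linarith
    have c1 : ‖fp z₀ - a‖ ^ 2 ≤ (rr / 16) ^ 2 := pow_le_pow_left₀ (norm_nonneg _) hs1.le 2
    have c2 : ‖fm z₀ - b‖ ^ 2 ≤ (rr / 16) ^ 2 := pow_le_pow_left₀ (norm_nonneg _) hs2.le 2
    have c3 : 4 * rr * ((fp z₀ - a).im - (fm z₀ - b).im) ≤ 4 * rr * (rr / 16 + rr / 16) :=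
      mul_le_mul_of_nonneg_left (by linarith) (by linarith)
    nlinarith [sq_nonneg (fp z₀ - a).im, sq_nonneg (fm z₀ - b).im]
  linarith

open Metric in
theorem ft_strand : GReg → GChart → GOM → GLoc → GMinP → GStrand := by
  intro _ hChart hOM hLoc hMinP S hS Y hY x T r hT2 hr
  obtain ⟨R, κ, Ap, Am, L⟩ := hLoc S hS Y hY x (T + 1) (by omega)
  have hR := L.hR
  have hκ := L.hc
  -- the radius `R1`
  obtain ⟨R1, hR1, hR1'⟩ := exists_unif (Finset.Ioo (-(T + 1)) (T + 1))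
    (fun n a => a ≤ R ∧ ∀ e ∈ ball (dat S Y x n) a, FFi S e ∈ ball (dat S Y x (n - 1)) R)
    (fun n a b _ hab h => ⟨hab.trans h.1, fun e he => h.2 e (ball_subset_ball hab he)⟩)
    (by
      intro n hn
      rw [Finset.mem_Ioo] at hn
      have hd : ContinuousAt (FFi S) (dat S Y x n) :=
        ((L.holFi n hn.1.le hn.2).differentiableAt (ball_mem_nhds _ hR)).continuousAt
      have he : FFi S (dat S Y x n) = dat S Y x (n - 1) := by
        have h1 := L.Fdat (n - 1)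
        rw [sub_add_cancel] at h1
        rw [← h1]
        exact (L.inv (n - 1) (by omega) (by omega) _ (mem_ball_self hR)).1
      have hev : ∀ᶠ e in 𝓝 (dat S Y x n), FFi S e ∈ ball (dat S Y x (n - 1)) R := by
        apply hd.eventually
        rw [he]
        exact ball_mem_nhds _ hR
      obtain ⟨a, ha, ha'⟩ := Metric.eventually_nhds_iff_ball.mp hev
      exact ⟨min a R, lt_min ha hR, min_le_right _ _,
        fun e he => ha' e (ball_subset_ball (min_le_left _ _) he)⟩)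
  have hR1R : R1 ≤ R := (hR1' 0 (by rw [Finset.mem_Ioo]; constructor <;> omega)).1
  -- the radius `r0`
  have hFcont : ∀ n : ℤ, -(T + 1) ≤ n → n < T + 1 → ∀ s : ℝ, 0 < s →
      ∃ a > 0, ∀ d ∈ closedBall (dat S Y x n) a, FF S d ∈ closedBall (dat S Y x (n + 1)) s := by
    intro n hn1 hn2 s hs
    have hd : ContinuousAt (FF S) (dat S Y x n) :=
      ((L.holF n hn1 hn2).differentiableAt (ball_mem_nhds _ hR)).continuousAt
    have hev : ∀ᶠ e in 𝓝 (dat S Y x n), FF S e ∈ closedBall (dat S Y x (n + 1)) s := by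
      apply hd.eventually
      rw [L.Fdat n]
      exact closedBall_mem_nhds _ hs
    obtain ⟨a, ha, ha'⟩ := Metric.eventually_nhds_iff_ball.mp hev
    exact ⟨a / 2, by linarith, fun d hd' => ha' d (closedBall_subset_ball (by linarith) hd')⟩
  obtain ⟨r1, hr1, hr1'⟩ := exists_unif (Finset.Ico (-(T + 1)) T)
    (fun n a => ∀ d ∈ closedBall (dat S Y x n) a,
      FF S d ∈ closedBall (dat S Y x (n + 1)) (R1 / 2))
    (fun n a b _ hab h d hd => h d (closedBall_subset_closedBall hab hd))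
    (fun n hn => by
      rw [Finset.mem_Ico] at hn
      exact hFcont n hn.1 (by omega) _ (by linarith))
  set r0 : ℝ := min (min r1 (R1 / 2)) (r / 3) with hr0def
  have hr0 : 0 < r0 := lt_min (lt_min hr1 (by linarith)) (by linarith)
  have hr0r1 : r0 ≤ r1 := (min_le_left _ _).trans (min_le_left _ _)
  have hr0R1 : r0 ≤ R1 / 2 := (min_le_left _ _).trans (min_le_right _ _)
  have hr0r : r0 ≤ r / 3 := min_le_right _ _
  -- closeness at the start
  set b : ℝ := min (R / 2) (κ * (κ * r0 / 32)) with hbdef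
  have hb : 0 < b := lt_min (by linarith) (by positivity)
  have hbR : b ≤ R / 2 := min_le_left _ _
  have hbκ : b ≤ κ * (κ * r0 / 32) := min_le_right _ _
  obtain ⟨a1, ha1, ha1'⟩ := hFcont 0 (by omega) (by omega) b hb
  have hmain : ∀ (δ ρ : ℝ) (w : ℂ → ℝ → ℂ) (c : ℂ), Tor S δ w ρ c → ∀ z₀ : ℝ × ℝ, 0 ≤ z₀.2 →
      z₀.2 ≤ 1 → DD w z₀ ∈ closedBall (dat S Y x ⌊z₀.2⌋) b →
      Strand S w Y x r 1 T ∨ Strand S w Y x r (-T) 0 := by
    intro δ ρ w c hT z₀ h0 h1 hD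
    have hfl : -(T + 1) ≤ ⌊z₀.2⌋ ∧ ⌊z₀.2⌋ < T + 1 := by
      constructor
      · rw [Int.le_floor]; push_cast
        have : (2:ℝ) ≤ T := by exact_mod_cast hT2
        linarith
      · rw [Int.floor_lt]; push_cast
        have : (2:ℝ) ≤ T := by exact_mod_cast hT2
        linarith
    have hDR : DD w z₀ ∈ ball (dat S Y x ⌊z₀.2⌋) R :=
      closedBall_subset_ball (by linarith) hD
    have hl := L.lip ⌊z₀.2⌋ hfl.1 hfl.2 _ hDR
    rw [mem_closedBall, dist_eq_norm] at hD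
    have hl2 := le_of_mul_le_mul_left (hl.trans (hD.trans hbκ)) hκ
    have hpos : 0 < κ * r0 := mul_pos hκ hr0
    refine strand_core hChart hOM hMinP hS hT2 L hR1 hR1R
      (fun n h h' => (hR1' n (by rw [Finset.mem_Ioo]; exact ⟨h, h'⟩)).2) hr0 hr0R1
      (by linarith) (fun n h h' d hd => hr1' n (by rw [Finset.mem_Ico]; omega) d
        (closedBall_subset_closedBall hr0r1 hd)) hT z₀ h0 h1 hDR ?_ ?_
    · have := (le_max_left _ _).trans hl2
      refine this.trans_lt ?_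
      linarith
    · have := (le_max_right _ _).trans hl2
      refine this.trans_lt ?_
      linarith
  refine ⟨min a1 b / 2, by have := lt_min ha1 hb; linarith, ?_⟩
  intro δ ρ w c _ hT q t ht hq hw
  have hm1 : min a1 b ≤ a1 := min_le_left _ _
  have hm2 : min a1 b ≤ b := min_le_right _ _
  have horb0 : S.orb Y x 0 = x := rfl
  have hvel0 : S.vel Y x 0 = S.V Y x 0 := rfl
  -- the data
  have hdat : ‖(((q : ℂ) - (t : ℂ) * w (q : ℂ) t, w (q : ℂ) t) : ℂ × ℂ) - dat S Y x 0‖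
      ≤ min a1 b := by
    have e1 : ‖(q : ℂ) - (t : ℂ) * w (q : ℂ) t - ((S.orb Y x 0 : ℝ) : ℂ)‖ ≤ min a1 b := by
      have e : (q : ℂ) - (t : ℂ) * w (q : ℂ) t - ((S.orb Y x 0 : ℝ) : ℂ)
          = ((q - (x + t * S.V Y x 0) : ℝ) : ℂ) - (t : ℂ) * (w (q : ℂ) t - (S.V Y x 0 : ℝ)) := by
        rw [horb0]; push_cast; ring
      rw [e]
      refine (norm_sub_le _ _).trans ?_
      rw [norm_mul, Complex.norm_real, Complex.norm_real, Real.norm_eq_abs, Real.norm_eq_abs,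
        abs_of_nonneg ht.1]
      have : t * ‖w (q : ℂ) t - (S.V Y x 0 : ℝ)‖ ≤ 1 * (min a1 b / 2) :=
        mul_le_mul ht.2 hw.le (norm_nonneg _) zero_le_one
      linarith
    have e2 : ‖w (q : ℂ) t - ((S.vel Y x 0 : ℝ) : ℂ)‖ ≤ min a1 b := by
      rw [hvel0]
      have := norm_nonneg (w (q : ℂ) t - (S.V Y x 0 : ℝ))
      linarith
    exact max_le e1 e2
  rcases lt_or_eq_of_le ht.2 with ht1 | ht1
  · have hfl : ⌊t⌋ = 0 := Int.floor_eq_iff.mpr ⟨by simpa using ht.1, by simpa using ht1⟩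
    have hfr : Int.fract t = t := by rw [Int.fract, hfl]; simp
    refine hmain δ ρ w c hT (q, t) ht.1 ht.2 ?_
    have e : DD w (q, t) = ((q : ℂ) - (t : ℂ) * w (q : ℂ) t, w (q : ℂ) t) := by
      simp only [DD, wt, hfr]
    simp only [hfl, e]
    rw [mem_closedBall, dist_eq_norm]
    exact hdat.trans hm2
  · subst ht1
    have hfl : ⌊(1:ℝ)⌋ = 1 := Int.floor_one
    have hfr : Int.fract (1:ℝ) = 0 := by rw [Int.fract, hfl]; simp
    refine hmain δ ρ w c hT (q, 1) zero_le_one le_rfl ?_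
    have e : DD w (q, 1) = FF S ((q : ℂ) - ((1:ℝ) : ℂ) * w (q : ℂ) 1, w (q : ℂ) 1) := by
      have hk := hT.kick (q : ℂ) (real_mem_Str hT.hρ q)
      simp only [DD, wt, hfr, FF, ofReal_zero, zero_mul, sub_zero, ofReal_one, one_mul,
        sub_add_cancel]
      rw [hk]
    simp only [hfl, e]
    have h1 := ha1' ((q : ℂ) - ((1:ℝ) : ℂ) * w (q : ℂ) 1, w (q : ℂ) 1) (by
      rw [mem_closedBall, dist_eq_norm]
      exact hdat.trans hm1)
    simpa using h1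

end Pool.Agent.Helper13.FT
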